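import Pool.Agent.Work.MP_674062_gt.Step

/-!
# Splitting large covers: the transfinite construction
-/

set_option autoImplicit false

namespace Pool.Agent.SplitLL

open Set Cardinal

/-- Sequences of open sets coded by sets of finite sequences. -/
def opn (A : ℕ → Set (List Bool)) (n : ℕ) : Set Cn :=
  {x | ∃ s ∈ A n, ∀ i < s.length, x i = s.getD i false}

theorem isOpen_opn (A : ℕ → Set (List Bool)) (n : ℕ) : IsOpen (opn A n) := by
  refine isOpen_of_agree (fun x hx => ?_)
  obtain ⟨s, hs, h⟩ := hx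
  exact ⟨s.length, fun y hy => ⟨s, hs, fun i hi => by rw [hy i hi, h i hi]⟩⟩

theorem exists_opn {U : ℕ → Set Cn} (hU : ∀ n, IsOpen (U n)) : ∃ A, opn A = U := by
  refine ⟨fun n => {s | ∀ y : Cn, (∀ i < s.length, y i = s.getD i false) → y ∈ U n}, ?_⟩
  funext n
  ext x
  constructor
  · rintro ⟨s, hs, h⟩
    exact hs x h
  · intro hx
    obtain ⟨m, hm⟩ := exists_agree (hU n) hx
    refine ⟨pre x m, fun y hy => hm y (fun i hi => ?_), fun i hi => ?_⟩
    · rw [hy i (by rw [length_pre]; exact hi), getD_pre x hi]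
    · rw [length_pre] at hi
      rw [getD_pre x hi]

/-- The points put into the first set at the beginning. -/
def ini (i : Bool) : Set Cn := {x | i = false ∧ ∃ m, x = fun n => !decide (n = m)}

theorem inf_ini {i : Bool} {x : Cn} (h : x ∈ ini i) : Inf x := by
  obtain ⟨-, m, rfl⟩ := h
  intro k
  refine ⟨max k (m + 1), le_max_left _ _, ?_⟩
  have : max k (m + 1) ≠ m := by omega
  simp [this]

/-- Tasks: covers for one of the two sets, and sets to be reaped. -/
abbrev Task : Type := (Bool × (ℕ → Set (List Bool))) ⊕ Cn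

/-- Moves: a point or a promise for one of the two sets. -/
abbrev Mv : Type := (Bool × Cn) ⊕ (Bool × Prm)

/-- The move `m` fulfils the task. -/
def Done : Task → Mv → Prop
  | .inl (i, A), m => (∃ x, m = .inl (i, x) ∧ ¬ ∀ k, ∃ n, k ≤ n ∧ x ∈ opn A n) ∨
      ∃ C, m = .inr (i, (opn A, C))
  | .inr B, m => ∃ i x, m = .inl (i, x) ∧
      ((∀ n, x n = true → B n = true) ∨ ∀ n, x n = true → B n = false)

/-- The invariant. -/
structure Inv (X : Bool → Set Cn) (P : Bool → Set Prm) : Prop where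
  inf : ∀ i, ∀ x ∈ X i, Inf x
  spl : ∀ i, ∀ x ∈ X i, ∀ p ∈ P i, Spl p x
  isOpen : ∀ i, ∀ p ∈ P i, ∀ n, IsOpen (p.1 n)
  ok : ∀ i, Ok (P i) (P (!i))

/-- Adding a point. -/
def addX (X : Bool → Set Cn) (m : Mv) (i : Bool) : Set Cn := X i ∪ {x | m = .inl (i, x)}

/-- Adding a promise. -/
def addP (P : Bool → Set Prm) (m : Mv) (i : Bool) : Set Prm := P i ∪ {p | m = .inr (i, p)}

theorem addX_inr (X : Bool → Set Cn) (m : Bool × Prm) : addX X (.inr m) = X := by
  funext i; ext x; simp [addX]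

theorem addP_inl (P : Bool → Set Prm) (m : Bool × Cn) : addP P (.inl m) = P := by
  funext i; ext x; simp [addP]

theorem mem_addX {X : Bool → Set Cn} {i j : Bool} {x y : Cn} (h : y ∈ addX X (.inl (i, x)) j) :
    y ∈ X j ∨ (j = i ∧ y = x) := by
  rcases h with h | h
  · exact Or.inl h
  · have h1 := Sum.inl.inj h
    exact Or.inr ⟨(congrArg Prod.fst h1).symm, (congrArg Prod.snd h1).symm⟩

theorem mem_addP {P : Bool → Set Prm} {i j : Bool} {p q : Prm}
    (h : q ∈ addP P (.inr (i, p)) j) : q ∈ P j ∨ (j = i ∧ q = p) := by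
  rcases h with h | h
  · exact Or.inl h
  · have h1 := Sum.inr.inj h
    exact Or.inr ⟨(congrArg Prod.fst h1).symm, (congrArg Prod.snd h1).symm⟩

theorem Small.mono {P P' : Set Prm} (h : P ⊆ P') {B : Cn} (hB : Small P B) : Small P' B := by
  rcases hB with ⟨k, h1⟩ | ⟨p, hp, h1⟩
  · exact Or.inl ⟨k, h1⟩
  · exact Or.inr ⟨p, h hp, h1⟩

theorem Ok.anti {P P' Q Q' : Set Prm} (hP : P' ⊆ P) (hQ : Q' ⊆ Q) (h : Ok P Q) : Ok P' Q' :=
  fun B h1 h2 => h B (h1.mono hP) (h2.mono hQ)

theorem Inv.add_point {X : Bool → Set Cn} {P : Bool → Set Prm} (h : Inv X P) {i : Bool} {x : Cn}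
    (hx : Inf x) (hxP : ∀ p ∈ P i, Spl p x) :
    Inv (addX X (.inl (i, x))) (addP P (.inl (i, x))) := by
  rw [addP_inl]
  refine ⟨fun j y hy => ?_, fun j y hy p hp => ?_, h.isOpen, h.ok⟩
  · rcases mem_addX hy with hy | ⟨rfl, rfl⟩
    · exact h.inf j y hy
    · exact hx
  · rcases mem_addX hy with hy | ⟨rfl, rfl⟩
    · exact h.spl j y hy p hp
    · exact hxP p hp

theorem step (hM : CovM) {X : Bool → Set Cn} {P : Bool → Set Prm} (h : Inv X P)
    (hX : ∀ i, #(X i) < continuum) (hP : ∀ i, #(P i) < continuum) (τ : Task) :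
    ∃ m, Done τ m ∧ Inv (addX X m) (addP P m) := by
  rcases τ with (⟨i, A⟩ | B)
  · by_cases hlim : ∀ x, Inf x → (∀ p ∈ P i, Spl p x) → ∀ k, ∃ n, k ≤ n ∧ x ∈ opn A n
    · obtain ⟨C, h1, h2⟩ := generic_set hM (hP i) (hP (!i)) (h.isOpen i) (h.isOpen (!i)) (h.ok i)
        (hX i) (fun x hx => ⟨h.inf i x hx, h.spl i x hx⟩) (isOpen_opn A) hlim
      refine ⟨.inr (i, (opn A, C)), Or.inr ⟨C, rfl⟩, ?_⟩
      rw [addX_inr]
      refine ⟨h.inf, fun j x hx p hp => ?_, fun j p hp => ?_, fun j => ?_⟩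
      · rcases mem_addP hp with hp | ⟨rfl, rfl⟩
        · exact h.spl j x hx p hp
        · exact h1 x hx
      · rcases mem_addP hp with hp | ⟨rfl, rfl⟩
        · exact h.isOpen j p hp
        · exact isOpen_opn A
      · have hsub : ∀ j, addP P (.inr (i, (opn A, C))) j ⊆
            if j = i then insert (opn A, C) (P j) else P j := by
          intro j p hp
          rcases mem_addP hp with hp | ⟨rfl, rfl⟩
          · split_ifs
            · exact mem_insert_of_mem _ hp
            · exact hp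
          · rw [if_pos rfl]
            exact mem_insert _ _
        by_cases hj : j = i
        · subst hj
          have h3 := hsub j
          have h4 := hsub (!j)
          rw [if_pos rfl] at h3
          rw [if_neg (by cases j <;> decide)] at h4
          exact h2.anti h3 h4
        · have hj' : (!j) = i := by
            cases j <;> cases i <;> simp_all
          have h3 := hsub j
          have h4 := hsub (!j)
          rw [if_neg hj] at h3
          rw [if_pos hj'] at h4
          subst hj'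
          rw [Bool.not_not] at h2
          exact h2.symm.anti h3 h4
    · push Not at hlim
      obtain ⟨x, hx, hxP, hx2⟩ := hlim
      exact ⟨.inl (i, x), Or.inl ⟨x, rfl, by push Not; exact hx2⟩, h.add_point hx hxP⟩
  · by_cases hs : Small (P false) B
    · have h1 := h.ok false B hs
      obtain ⟨x, hx, hinf, hxP⟩ := generic_point hM (hP (!false)) (h.isOpen (!false)) h1 []
      refine ⟨.inl (true, x), ⟨true, x, rfl, Or.inr (fun n hn => ?_)⟩, h.add_point hinf hxP⟩
      have := hx.2 n (Nat.zero_le _) hn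
      simpa [co] using this
    · obtain ⟨x, hx, hinf, hxP⟩ := generic_point hM (hP false) (h.isOpen false) hs []
      exact ⟨.inl (false, x), ⟨false, x, rfl, Or.inl (fun n hn => hx.2 n (Nat.zero_le _) hn)⟩,
        h.add_point hinf hxP⟩

/-! ### Transfinite recursion -/

theorem exists_rec {A M : Type} [Nonempty M] (r : A → A → Prop) [IsWellOrder A r]
    (G : A → (A → M) → Prop)
    (hloc : ∀ α h h', (∀ β, (r β α ∨ β = α) → h β = h' β) → G α h → G α h')
    (hstep : ∀ α h, (∀ β, r β α → G β h) → ∃ m, ∃ h', (∀ β, r β α → h' β = h β) ∧ h' α = m ∧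
      G α h') : ∃ h, ∀ α, G α h := by
  classical
  let m0 : M := Classical.arbitrary M
  let ch : A → (A → M) → M := fun α g =>
    if hm : ∃ m, ∃ h', (∀ β, r β α → h' β = g β) ∧ h' α = m ∧ G α h' then hm.choose else m0
  have wf : WellFounded r := IsWellFounded.wf
  let f : A → M := wf.fix (fun α ih => ch α (fun β => if hβ : r β α then ih β hβ else m0))
  have hf : ∀ α, f α = ch α (fun β => if r β α then f β else m0) := by
    intro α
    have := wf.fix_eq (fun α ih => ch α (fun β => if hβ : r β α then ih β hβ else m0)) α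
    exact this
  refine ⟨f, fun α => wf.induction α (C := fun α => G α f) (fun α ih => ?_)⟩
  let g : A → M := fun β => if r β α then f β else m0
  have hg : ∀ β, r β α → g β = f β := fun β hβ => if_pos hβ
  have h1 : ∀ β, r β α → G β g := fun β hβ => hloc β f g (fun γ hγ => by
    rw [hg γ (by
      rcases hγ with hγ | rfl
      · exact _root_.trans hγ hβ
      · exact hβ)]) (ih β hβ)
  have h2 := hstep α g h1
  have h3 : ch α g = h2.choose := dif_pos h2
  obtain ⟨h', h4, h5, h6⟩ := h2.choose_spec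
  refine hloc α h' f (fun β hβ => ?_) h6
  rcases hβ with hβ | rfl
  · rw [h4 β hβ, hg β hβ]
  · rw [h5, ← h3, hf]

/-- The points chosen at the tasks in `T`. -/
def pt (h : Task → Mv) (T : Task → Prop) (i : Bool) : Set Cn :=
  ini i ∪ {x | ∃ β, T β ∧ h β = .inl (i, x)}

/-- The promises chosen at the tasks in `T`. -/
def pr (h : Task → Mv) (T : Task → Prop) (i : Bool) : Set Prm := {p | ∃ β, T β ∧ h β = .inr (i, p)}

theorem fin_co {B : Cn} {k l : ℕ} (h : B ∈ fin k) (h' : co B ∈ fin l) : False := by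
  have h1 := h (max k l) (le_max_left _ _)
  have h2 := h' (max k l) (le_max_right _ _)
  unfold co at h2
  rw [h1] at h2
  cases h2

section
variable {r : Task → Task → Prop} [IsWellOrder Task r]

theorem inv_limit {h : Task → Mv} {T : Task → Prop}
    (hT : ∀ β, T β → Inv (pt h (fun γ => r γ β ∨ γ = β)) (pr h (fun γ => r γ β ∨ γ = β))) :
    Inv (pt h T) (pr h T) := by
  have hmax : ∀ β γ, T β → T γ → ∃ δ, T δ ∧ (r β δ ∨ β = δ) ∧ (r γ δ ∨ γ = δ) := by
    intro β γ hβ hγ
    rcases trichotomous_of r β γ with h1 | h1 | h1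
    · exact ⟨γ, hγ, Or.inl h1, Or.inr rfl⟩
    · exact ⟨γ, hγ, Or.inr h1, Or.inr rfl⟩
    · exact ⟨β, hβ, Or.inr rfl, Or.inl h1⟩
  refine ⟨fun i x hx => ?_, fun i x hx p hp => ?_, fun i p hp => ?_, fun i B h1 h2 => ?_⟩
  · rcases hx with hx | ⟨β, hβ, hx⟩
    · exact inf_ini hx
    · exact (hT β hβ).inf i x (Or.inr ⟨β, Or.inr rfl, hx⟩)
  · obtain ⟨γ, hγ, hp⟩ := hp
    rcases hx with hx | ⟨β, hβ, hx⟩
    · exact (hT γ hγ).spl i x (Or.inl hx) p ⟨γ, Or.inr rfl, hp⟩
    · obtain ⟨δ, hδ, h1, h2⟩ := hmax β γ hβ hγ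
      exact (hT δ hδ).spl i x (Or.inr ⟨β, h1, hx⟩) p ⟨γ, h2, hp⟩
  · obtain ⟨γ, hγ, hp⟩ := hp
    exact (hT γ hγ).isOpen i p ⟨γ, Or.inr rfl, hp⟩
  · rcases h1 with ⟨k, h1⟩ | ⟨p, ⟨β, hβ, hp⟩, s, k, c, h1⟩
    · rcases h2 with ⟨l, h2⟩ | ⟨q, ⟨γ, hγ, hq⟩, t, l, d, h2⟩
      · exact fin_co h1 h2
      · exact (hT γ hγ).ok i B (Or.inl ⟨k, h1⟩)
          (Or.inr ⟨q, ⟨γ, Or.inr rfl, hq⟩, t, l, d, h2⟩)
    · rcases h2 with ⟨l, h2⟩ | ⟨q, ⟨γ, hγ, hq⟩, t, l, d, h2⟩
      · exact (hT β hβ).ok i B (Or.inr ⟨p, ⟨β, Or.inr rfl, hp⟩, s, k, c, h1⟩) (Or.inl ⟨l, h2⟩)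
      · obtain ⟨δ, hδ, h3, h4⟩ := hmax β γ hβ hγ
        exact (hT δ hδ).ok i B (Or.inr ⟨p, ⟨β, h3, hp⟩, s, k, c, h1⟩)
          (Or.inr ⟨q, ⟨γ, h4, hq⟩, t, l, d, h2⟩)

end

theorem mk_ini (i : Bool) : #(ini i) < continuum := by
  refine lt_of_le_of_lt ?_ aleph0_lt_continuum
  rw [mk_le_aleph0_iff]
  have : (range (fun m : ℕ => (fun n => !decide (n = m) : Cn))).Countable := countable_range _
  exact (this.mono (fun x hx => by
    obtain ⟨-, m, rfl⟩ := hx
    exact ⟨m, rfl⟩)).to_subtype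

theorem mk_pt {h : Task → Mv} {T : Task → Prop} (hT : #{β // T β} < continuum) (i : Bool) :
    #(pt h T i) < continuum := by
  refine (mk_union_le _ _).trans_lt (add_lt_of_lt aleph0_le_continuum (mk_ini i) ?_)
  refine lt_of_le_of_lt (mk_le_mk_of_subset (t := range (fun β : {β // T β} =>
    match h β.1 with
    | .inl m => m.2
    | .inr _ => fun _ => false)) ?_) (mk_range_le.trans_lt hT)
  rintro x ⟨β, hβ, hx⟩
  refine ⟨⟨β, hβ⟩, ?_⟩
  simp only [hx]

theorem mk_pr {h : Task → Mv} {T : Task → Prop} (hT : #{β // T β} < continuum) (i : Bool) :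
    #(pr h T i) < continuum := by
  refine lt_of_le_of_lt (mk_le_mk_of_subset (t := range (fun β : {β // T β} =>
    match h β.1 with
    | .inl _ => (fun _ => ∅, fun _ => false)
    | .inr m => m.2)) ?_) (mk_range_le.trans_lt hT)
  rintro x ⟨β, hβ, hx⟩
  refine ⟨⟨β, hβ⟩, ?_⟩
  simp only [hx]

theorem mk_Task : #Task ≤ continuum := by
  have h1 : #(ℕ → Set (List Bool)) = continuum := by
    rw [← power_def, mk_set]
    simp
  have h2 : #Cn = continuum := by
    rw [← power_def]
    simp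
  have h3 : #(Bool × (ℕ → Set (List Bool))) ≤ continuum := by
    rw [mk_prod]
    simp only [lift_id, h1]
    refine (mul_le_max_of_aleph0_le_right aleph0_le_continuum).trans ?_
    simpa using (nat_lt_continuum 2).le
  rw [mk_sum]
  simp only [lift_id, h2]
  exact (add_le_add_left h3 _).trans (by simp)

theorem exists_history (hM : CovM) : ∃ h : Task → Mv, (∀ α, Done α (h α)) ∧
    Inv (pt h (fun _ => True)) (pr h (fun _ => True)) := by
  classical
  obtain ⟨r, wo, hr⟩ := exists_ord_eq Task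
  have hsmall : ∀ α : Task, #{β // r β α} < continuum := by
    intro α
    have h1 := card_typein_lt α hr
    have h2 : #{β // r β α} = (Ordinal.typein r α).card := by
      rw [Ordinal.card_typein]
    rw [h2]
    exact h1.trans_le mk_Task
  obtain ⟨h, hh⟩ := exists_rec (M := Mv) r (fun α h => Done α (h α) ∧
      Inv (pt h (fun γ => r γ α ∨ γ = α)) (pr h (fun γ => r γ α ∨ γ = α)))
    (by
      rintro α h h' he ⟨h1, h2⟩
      have e1 : pt h' (fun γ => r γ α ∨ γ = α) = pt h (fun γ => r γ α ∨ γ = α) := by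
        funext i
        ext x
        refine or_congr Iff.rfl (exists_congr (fun β => and_congr_right (fun hβ => ?_)))
        rw [he β hβ]
      have e2 : pr h' (fun γ => r γ α ∨ γ = α) = pr h (fun γ => r γ α ∨ γ = α) := by
        funext i
        ext x
        refine exists_congr (fun β => and_congr_right (fun hβ => ?_))
        rw [he β hβ]
      rw [e1, e2, ← he α (Or.inr rfl)]
      exact ⟨h1, h2⟩)
    (by
      intro α h hβ
      have hinv : Inv (pt h (fun γ => r γ α)) (pr h (fun γ => r γ α)) :=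
        inv_limit (r := r) (fun β hβα => (hβ β hβα).2)
      obtain ⟨m, hm1, hm2⟩ := step hM hinv (mk_pt (hsmall α)) (mk_pr (hsmall α)) α
      refine ⟨m, Function.update h α m, fun β hβα => ?_, Function.update_self _ _ _, ?_, ?_⟩
      · exact Function.update_of_ne (fun e => by subst e; exact irrefl_of r _ hβα) _ _
      · rw [Function.update_self]; exact hm1
      · have hu : ∀ β, r β α → Function.update h α m β = h β := fun β hβα =>
          Function.update_of_ne (fun e => by subst e; exact irrefl_of r _ hβα) _ _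
        have e1 : pt (Function.update h α m) (fun γ => r γ α ∨ γ = α) =
            addX (pt h (fun γ => r γ α)) m := by
          funext i
          ext x
          constructor
          · rintro (hx | ⟨β, (hβ | rfl), hx⟩)
            · exact Or.inl (Or.inl hx)
            · exact Or.inl (Or.inr ⟨β, hβ, by rw [← hu β hβ]; exact hx⟩)
            · rw [Function.update_self] at hx
              exact Or.inr hx
          · rintro ((hx | ⟨β, hβ, hx⟩) | hx)
            · exact Or.inl hx
            · exact Or.inr ⟨β, Or.inl hβ, by rw [hu β hβ]; exact hx⟩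
            · exact Or.inr ⟨α, Or.inr rfl, by rw [Function.update_self]; exact hx⟩
        have e2 : pr (Function.update h α m) (fun γ => r γ α ∨ γ = α) =
            addP (pr h (fun γ => r γ α)) m := by
          funext i
          ext x
          constructor
          · rintro ⟨β, (hβ | rfl), hx⟩
            · exact Or.inl ⟨β, hβ, by rw [← hu β hβ]; exact hx⟩
            · rw [Function.update_self] at hx
              exact Or.inr hx
          · rintro (⟨β, hβ, hx⟩ | hx)
            · exact ⟨β, Or.inl hβ, by rw [hu β hβ]; exact hx⟩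
            · exact ⟨α, Or.inr rfl, by rw [Function.update_self]; exact hx⟩
        rw [e1, e2]
        exact hm2)
  exact ⟨h, fun α => (hh α).1, inv_limit (r := r) (fun β _ => (hh β).2)⟩

/-- **The two sets.** -/
theorem exists_sets (hM : CovM) : ∃ X : Bool → Set Cn,
    (∀ i, ∀ U : ℕ → Set Cn, (∀ n, IsOpen (U n)) → (∀ x ∈ X i, ∀ k, ∃ n, k ≤ n ∧ x ∈ U n) →
      ∃ C, ∀ x ∈ X i, Spl (U, C) x) ∧
    (∀ i, ∀ x ∈ X i, Inf x) ∧
    (∀ B : Cn, ∃ i, ∃ x ∈ X i,
      (∀ n, x n = true → B n = true) ∨ ∀ n, x n = true → B n = false) ∧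
    ∀ m, (fun n => !decide (n = m) : Cn) ∈ X false := by
  obtain ⟨h, h1, h2⟩ := exists_history hM
  refine ⟨pt h (fun _ => True), fun i U hU hlim => ?_, h2.inf, fun B => ?_, fun m => ?_⟩
  · obtain ⟨A, rfl⟩ := exists_opn hU
    rcases h1 (.inl (i, A)) with ⟨x, hx, hx2⟩ | ⟨C, hC⟩
    · exact absurd (hlim x (Or.inr ⟨_, trivial, hx⟩)) hx2
    · exact ⟨C, fun x hx => h2.spl i x hx _ ⟨_, trivial, hC⟩⟩
  · obtain ⟨i, x, hx, hx2⟩ := h1 (.inr B)
    exact ⟨i, x, Or.inr ⟨_, trivial, hx⟩, hx2⟩
  · exact Or.inl ⟨rfl, m, rfl⟩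

end Pool.Agent.SplitLL
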