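import Mathlib

/-!
# Splitting large covers: generic points and generic splitting sets

Cantor space is `ℕ → Bool`. A promise `(U, C)` asks a point `x` to be such that `C` splits
`{n | x ∈ U n}`. The hypothesis `CovM` says that fewer than continuum many dense open subsets of
Cantor space have a common point.
-/

set_option autoImplicit false

namespace Pool.Agent.SplitLL

open Set Cardinal

/-- Cantor space. -/
abbrev Cn : Type := ℕ → Bool

/-- Fewer than continuum many dense open sets in Cantor space have a common point. -/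
def CovM : Prop := ∀ 𝒟 : Set (Set Cn), #𝒟 < continuum → (∀ D ∈ 𝒟, IsOpen D ∧ Dense D) →
  (⋂₀ 𝒟).Nonempty

theorem CovM.get (h : CovM) {ι : Type} (hι : #ι < continuum) (D : ι → Set Cn)
    (hD : ∀ i, IsOpen (D i) ∧ Dense (D i)) : ∃ x, ∀ i, x ∈ D i := by
  obtain ⟨x, hx⟩ := h (range D) (mk_range_le.trans_lt hι) (by rintro _ ⟨i, rfl⟩; exact hD i)
  exact ⟨x, fun i => hx _ ⟨i, rfl⟩⟩

/-! ### Topology of Cantor space -/

theorem exists_agree {O : Set Cn} (hO : IsOpen O) {x : Cn} (hx : x ∈ O) :
    ∃ m, ∀ y : Cn, (∀ i < m, y i = x i) → y ∈ O := by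
  obtain ⟨I, u, h1, h2⟩ := isOpen_pi_iff.1 hO x hx
  refine ⟨I.sup id + 1, fun y hy => h2 (fun i hi => ?_)⟩
  rw [hy i (Nat.lt_succ_of_le (Finset.le_sup (f := id) hi))]
  exact (h1 i hi).2

theorem isClopen_coord (i : ℕ) (b : Bool) : IsClopen {y : Cn | y i = b} := by
  have h : {y : Cn | y i = b} = (fun y : Cn => y i) ⁻¹' {b} := rfl
  rw [h]
  exact (isClopen_discrete {b}).preimage (continuous_apply i)

theorem isOpen_agree (x : Cn) (m : ℕ) : IsOpen {y : Cn | ∀ i < m, y i = x i} := by
  have : {y : Cn | ∀ i < m, y i = x i} = ⋂ i ∈ Finset.range m, {y : Cn | y i = x i} := by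
    ext y; simp
  rw [this]
  exact isOpen_biInter_finset (fun i _ => (isClopen_coord i (x i)).2)

theorem isOpen_of_agree {O : Set Cn}
    (h : ∀ x ∈ O, ∃ m, ∀ y : Cn, (∀ i < m, y i = x i) → y ∈ O) : IsOpen O := by
  rw [isOpen_iff_forall_mem_open]
  intro x hx
  obtain ⟨m, hm⟩ := h x hx
  exact ⟨_, fun y hy => hm y hy, isOpen_agree x m, fun i _ => rfl⟩

/-- The finite sequence of the first `m` values. -/
def pre (x : Cn) (m : ℕ) : List Bool := (List.range m).map x

theorem length_pre (x : Cn) (m : ℕ) : (pre x m).length = m := by simp [pre]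

theorem getD_pre (x : Cn) {m i : ℕ} (h : i < m) : (pre x m).getD i false = x i := by
  rw [List.getD_eq_getElem _ _ (by rw [length_pre]; exact h)]
  simp [pre]

theorem dense_of_cyl {D : Set Cn}
    (h : ∀ t : List Bool, ∃ y ∈ D, ∀ i < t.length, y i = t.getD i false) : Dense D := by
  rw [dense_iff_inter_open]
  rintro O hO ⟨x, hx⟩
  obtain ⟨m, hm⟩ := exists_agree hO hx
  obtain ⟨y, hy, h1⟩ := h (pre x m)
  refine ⟨y, hm y (fun i hi => ?_), hy⟩
  rw [h1 i (by rw [length_pre]; exact hi), getD_pre x hi]

/-! ### Segments and traces -/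

/-- The points extending `s` whose further elements lie in `B`. -/
def seg (s : List Bool) (B : Cn) : Set Cn :=
  {x | (∀ i < s.length, x i = s.getD i false) ∧ ∀ i, s.length ≤ i → x i = true → B i = true}

/-- The indices `n` such that `U n` meets the segment. -/
def N (U : ℕ → Set Cn) (s : List Bool) (B : Cn) : Set ℕ := {n | ∃ x ∈ seg s B, x ∈ U n}

theorem isOpen_N {U : ℕ → Set Cn} (hU : ∀ n, IsOpen (U n)) (s : List Bool) (n : ℕ) :
    IsOpen {B : Cn | n ∈ N U s B} := by
  refine isOpen_of_agree (fun B hB => ?_)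
  obtain ⟨x, ⟨hx1, hx2⟩, hxU⟩ := hB
  obtain ⟨m, hm⟩ := exists_agree (hU n) hxU
  refine ⟨m, fun B' hB' => ?_⟩
  by_cases hs : s.length ≤ m
  · refine ⟨fun i => if i < m then x i else false, ⟨fun i hi => ?_, fun i hi h => ?_⟩,
      hm _ (fun i hi => if_pos hi)⟩
    · show (if i < m then x i else false) = _
      rw [if_pos (lt_of_lt_of_le hi hs), hx1 i hi]
    · by_cases him : i < m
      · rw [hB' i him]
        dsimp only at h
        rw [if_pos him] at h
        exact hx2 i hi h
      · dsimp only at h
        rw [if_neg him] at h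
        cases h
  · push Not at hs
    refine ⟨fun i => if i < s.length then x i else false, ⟨fun i hi => ?_, fun i hi h => ?_⟩,
      hm _ (fun i hi => if_pos (hi.trans hs))⟩
    · show (if i < s.length then x i else false) = _
      rw [if_pos hi, hx1 i hi]
    · dsimp only at h
      rw [if_neg (not_lt.2 hi)] at h
      cases h

/-- A promise: a sequence of sets and a splitting set. -/
abbrev Prm : Type := (ℕ → Set Cn) × Cn

/-- The promise `p` holds at `x`. -/
def Spl (p : Prm) (x : Cn) : Prop := ∀ (c : Bool) (k : ℕ), ∃ n, k ≤ n ∧ p.2 n = c ∧ x ∈ p.1 n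

/-- Infinite sets. -/
def Inf (x : Cn) : Prop := ∀ k, ∃ n, k ≤ n ∧ x n = true

/-- The sets captured by a promise. -/
def cap (p : Prm) (s : List Bool) (k : ℕ) (c : Bool) : Set Cn :=
  {B | ∀ n, k ≤ n → n ∈ N p.1 s B → p.2 n = c}

/-- The sets contained in `k`. -/
def fin (k : ℕ) : Set Cn := {B | ∀ n, k ≤ n → B n = false}

/-- Small sets with respect to a family of promises. -/
def Small (P : Set Prm) (B : Cn) : Prop :=
  (∃ k, B ∈ fin k) ∨ ∃ p ∈ P, ∃ s k c, B ∈ cap p s k c

/-- Complement. -/
def co (B : Cn) : Cn := fun n => !B n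

theorem co_co (B : Cn) : co (co B) = B := by
  funext n; simp [co]

theorem continuous_co : Continuous co :=
  continuous_pi (fun n => continuous_of_discreteTopology.comp (continuous_apply n))

/-- No set is small for `P` with complement small for `Q`. -/
def Ok (P Q : Set Prm) : Prop := ∀ B, Small P B → ¬ Small Q (co B)

theorem Ok.symm {P Q : Set Prm} (h : Ok P Q) : Ok Q P := by
  intro B h1 h2
  refine h (co B) h2 ?_
  rw [co_co]
  exact h1

theorem isClosed_cap {p : Prm} (hp : ∀ n, IsOpen (p.1 n)) (s : List Bool) (k : ℕ) (c : Bool) :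
    IsClosed (cap p s k c) := by
  have : cap p s k c = ⋂ n : {n : ℕ // k ≤ n ∧ p.2 n ≠ c}, {B : Cn | (n : ℕ) ∈ N p.1 s B}ᶜ := by
    ext B
    rw [mem_iInter]
    constructor
    · intro h n hn
      exact n.2.2 (h n n.2.1 hn)
    · intro h n hn hN
      by_contra hc
      exact h ⟨n, hn, hc⟩ hN
  rw [this]
  exact isClosed_iInter (fun n => (isOpen_N hp s n).isClosed_compl)

theorem isClosed_fin (k : ℕ) : IsClosed (fin k) := by
  have : fin k = ⋂ n : {n : ℕ // k ≤ n}, {B : Cn | B n = false} := by
    ext B; simp [fin]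
  rw [this]
  exact isClosed_iInter (fun n => (isClopen_coord _ _).1)

/-! ### Generic points -/

/-- Parametrisation of a segment. -/
def par (s : List Bool) (B z : Cn) : Cn :=
  fun n => if n < s.length then s.getD n false else z n && B n

theorem continuous_par (s : List Bool) (B : Cn) : Continuous (par s B) := by
  refine continuous_pi (fun n => ?_)
  unfold par
  split_ifs
  · exact continuous_const
  · exact (continuous_of_discreteTopology (f := fun b : Bool => b && B n)).comp
      (continuous_apply n)

theorem par_mem (s : List Bool) (B z : Cn) : par s B z ∈ seg s B := by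
  refine ⟨fun i hi => if_pos hi, fun i hi h => ?_⟩
  unfold par at h
  rw [if_neg (not_lt.2 hi)] at h
  exact (Bool.and_eq_true_iff.1 h).2

theorem par_eq {s : List Bool} {B x : Cn} (hx : x ∈ seg s B) : par s B x = x := by
  funext n
  unfold par
  split_ifs with h
  · exact (hx.1 n h).symm
  · cases hn : x n with
    | false => rfl
    | true => rw [hx.2 n (not_lt.1 h) hn]; rfl

theorem par_glue {s : List Bool} {B z0 x : Cn} {m : ℕ} (hm : s.length ≤ m)
    (hx : x ∈ seg (pre (par s B z0) m) B) :
    par s B (fun i => if i < m then z0 i else x i) = x := by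
  obtain ⟨h1, h2⟩ := hx
  rw [length_pre] at h1 h2
  funext i
  by_cases him : i < m
  · rw [h1 i him, getD_pre _ him]
    unfold par
    simp only [if_pos him]
  · have h3 : ¬ i < s.length := by omega
    unfold par
    rw [if_neg h3]
    simp only [if_neg him]
    cases hn : x i with
    | false => rfl
    | true => rw [h2 i (not_lt.1 him) hn]; rfl

theorem generic_point (hM : CovM) {P : Set Prm} (hP : #P < continuum)
    (hU : ∀ p ∈ P, ∀ n, IsOpen (p.1 n)) {B : Cn} (hB : ¬ Small P B) (s : List Bool) :
    ∃ x ∈ seg s B, Inf x ∧ ∀ p ∈ P, Spl p x := by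
  unfold Small at hB
  push Not at hB
  obtain ⟨hB1, hB2⟩ := hB
  have hinf : ∀ k, ∃ n, k ≤ n ∧ B n = true := by
    intro k
    have := hB1 k
    unfold fin at this
    change ¬ ∀ n, k ≤ n → B n = false at this
    push Not at this
    obtain ⟨n, hn, h⟩ := this
    exact ⟨n, hn, by simpa using h⟩
  let D : ℕ ⊕ (P × Bool × ℕ) → Set Cn := fun i => match i with
    | .inl k => {z | ∃ n, k ≤ n ∧ par s B z n = true}
    | .inr (p, c, k) => {z | ∃ n, k ≤ n ∧ p.1.2 n = c ∧ par s B z ∈ p.1.1 n}
  have hcard : #(ℕ ⊕ (P × Bool × ℕ)) < continuum := by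
    rw [mk_sum, mk_prod, mk_prod]
    simp only [lift_id]
    refine add_lt_of_lt aleph0_le_continuum (by simpa using aleph0_lt_continuum)
      (mul_lt_of_lt aleph0_le_continuum hP (mul_lt_of_lt aleph0_le_continuum ?_ ?_))
    · simpa using (nat_lt_continuum 2)
    · simpa using aleph0_lt_continuum
  obtain ⟨z, hz⟩ := hM.get hcard D (by
    rintro (k | ⟨p, c, k⟩)
    · constructor
      · have : D (.inl k) = ⋃ n : {n : ℕ // k ≤ n}, par s B ⁻¹' {x : Cn | x n = true} := by
          ext z
          simp [D]
        rw [this]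
        exact isOpen_iUnion (fun n => (isClopen_coord _ _).2.preimage (continuous_par s B))
      · refine dense_of_cyl (fun t => ?_)
        obtain ⟨n, hn, hBn⟩ := hinf (max k (max t.length s.length))
        refine ⟨fun i => if i < t.length then t.getD i false else true,
          ⟨n, (le_max_left _ _).trans hn, ?_⟩, fun i hi => if_pos hi⟩
        have h1 : ¬ n < s.length := by omega
        have h2 : ¬ n < t.length := by omega
        unfold par
        rw [if_neg h1]
        simp only [if_neg h2, hBn, Bool.and_self]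
    · constructor
      · have : D (.inr (p, c, k)) = ⋃ n : {n : ℕ // k ≤ n ∧ p.1.2 n = c},
            par s B ⁻¹' (p.1.1 n) := by
          ext z
          simp [D, and_assoc]
        rw [this]
        exact isOpen_iUnion (fun n => (hU p.1 p.2 n).preimage (continuous_par s B))
      · refine dense_of_cyl (fun t => ?_)
        let z0 : Cn := fun i => t.getD i false
        let m := max t.length s.length
        have h1 := hB2 p.1 p.2 (pre (par s B z0) m) k (!c)
        unfold cap at h1
        change ¬ ∀ n, k ≤ n → n ∈ N p.1.1 (pre (par s B z0) m) B → p.1.2 n = !c at h1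
        push Not at h1
        obtain ⟨n, hn, ⟨x, hx, hxU⟩, hc⟩ := h1
        refine ⟨fun i => if i < m then z0 i else x i, ⟨n, hn, ?_, ?_⟩, fun i hi => ?_⟩
        · revert hc
          cases p.1.2 n <;> cases c <;> simp
        · rw [par_glue (le_max_right _ _) hx]
          exact hxU
        · exact if_pos (lt_of_lt_of_le hi (le_max_left _ _)))
  refine ⟨par s B z, par_mem s B z, fun k => hz (.inl k), fun p hp c k => ?_⟩
  exact hz (.inr (⟨p, hp⟩, c, k))

end Pool.Agent.SplitLL
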