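import Pool.Agent.Work.MP_674062_gt.Core

/-!
# Splitting large covers: a generic splitting set preserves the invariant
-/

set_option autoImplicit false

namespace Pool.Agent.SplitLL

open Set Cardinal

theorem compact_bound {U : ℕ → Set Cn} (hU : ∀ n, IsOpen (U n)) {ρ : Set Cn} (hρ : IsClosed ρ)
    (s : List Bool) (h : ∀ B ∈ ρ, ∀ j, ∃ n, j ≤ n ∧ n ∈ N U s (co B)) (j : ℕ) :
    ∃ j', ∀ B ∈ ρ, ∃ n, j ≤ n ∧ n < j' ∧ n ∈ N U s (co B) := by
  obtain ⟨j', hj'⟩ := hρ.isCompact.elim_directed_cover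
    (fun j' : ℕ => {B : Cn | ∃ n, j ≤ n ∧ n < j' ∧ n ∈ N U s (co B)}) (fun j' => by
      have : {B : Cn | ∃ n, j ≤ n ∧ n < j' ∧ n ∈ N U s (co B)} =
          ⋃ n : {n : ℕ // j ≤ n ∧ n < j'}, co ⁻¹' {B : Cn | (n : ℕ) ∈ N U s B} := by
        ext B
        simp [and_assoc]
      rw [this]
      exact isOpen_iUnion (fun n => (isOpen_N hU s n).preimage continuous_co))
    (fun B hB => by
      obtain ⟨n, hn, h1⟩ := h B hB j
      exact mem_iUnion.2 ⟨n + 1, n, hn, Nat.lt_succ_self n, h1⟩)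
    (directed_of_isDirected_le (fun a b hab B hB => by
      obtain ⟨n, h1, h2, h3⟩ := hB
      exact ⟨n, h1, h2.trans_le hab, h3⟩))
  exact ⟨j', fun B hB => hj' hB⟩

/-- Indices of the compact families which make up the small sets of `Q`. -/
abbrev Pc (Q : Set Prm) : Type := ℕ ⊕ (Q × List Bool × ℕ × Bool)

/-- The compact families which make up the small sets of `Q`. -/
def piece (Q : Set Prm) : Pc Q → Set Cn
  | .inl k => fin k
  | .inr (q, t, k, c) => cap q.1 t k c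

theorem isClosed_piece {Q : Set Prm} (hQ : ∀ q ∈ Q, ∀ n, IsOpen (q.1 n)) (i : Pc Q) :
    IsClosed (piece Q i) := by
  rcases i with (k | ⟨q, t, k, c⟩)
  · exact isClosed_fin k
  · exact isClosed_cap (hQ q.1 q.2) t k c

theorem small_piece {Q : Set Prm} {i : Pc Q} {B : Cn} (h : B ∈ piece Q i) : Small Q B := by
  rcases i with (k | ⟨q, t, k, c⟩)
  · exact Or.inl ⟨k, h⟩
  · exact Or.inr ⟨q.1, q.2, t, k, c, h⟩

theorem exists_piece {Q : Set Prm} {B : Cn} (h : Small Q B) : ∃ i, B ∈ piece Q i := by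
  rcases h with ⟨k, h⟩ | ⟨q, hq, t, k, c, h⟩
  · exact ⟨.inl k, h⟩
  · exact ⟨.inr (⟨q, hq⟩, t, k, c), h⟩

theorem generic_set (hM : CovM) {P Q : Set Prm} (hP : #P < continuum) (hQ : #Q < continuum)
    (hPo : ∀ p ∈ P, ∀ n, IsOpen (p.1 n)) (hQo : ∀ q ∈ Q, ∀ n, IsOpen (q.1 n)) (hOk : Ok P Q)
    {X : Set Cn} (hX : #X < continuum) (hXP : ∀ x ∈ X, Inf x ∧ ∀ p ∈ P, Spl p x)
    {U : ℕ → Set Cn} (hU : ∀ n, IsOpen (U n))
    (hlim : ∀ x, Inf x → (∀ p ∈ P, Spl p x) → ∀ k, ∃ n, k ≤ n ∧ x ∈ U n) :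
    ∃ C : Cn, (∀ x ∈ X, Spl (U, C) x) ∧ Ok (insert (U, C) P) Q := by
  have hbd : ∀ (i : Pc Q) (s : List Bool) (j : ℕ), ∃ j', ∀ B ∈ piece Q i,
      ∃ n, j ≤ n ∧ n < j' ∧ n ∈ N U s (co B) := by
    intro i s j
    refine compact_bound hU (isClosed_piece hQo i) s (fun B hB j => ?_) j
    have h1 : ¬ Small P (co B) := fun h => hOk _ h (by rw [co_co]; exact small_piece hB)
    obtain ⟨x, hx, h2, h3⟩ := generic_point hM hP hPo h1 s
    obtain ⟨n, hn, hxn⟩ := hlim x h2 h3 j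
    exact ⟨n, hn, x, hx, hxn⟩
  let D : (X × Bool × ℕ) ⊕ (Pc Q × List Bool × ℕ × Bool) → Set Cn := fun i => match i with
    | .inl (x, c, k) => {C | ∃ n, k ≤ n ∧ x.1 ∈ U n ∧ C n = c}
    | .inr (i, s, k, c) => {C | ∃ j, k ≤ j ∧ ∃ j', (∀ B ∈ piece Q i,
        ∃ n, j ≤ n ∧ n < j' ∧ n ∈ N U s (co B)) ∧ ∀ n, j ≤ n → n < j' → C n = c}
  have hcQ : #(Pc Q) < continuum := by
    rw [mk_sum, mk_prod, mk_prod, mk_prod]
    simp only [lift_id]
    refine add_lt_of_lt aleph0_le_continuum (by simpa using aleph0_lt_continuum)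
      (mul_lt_of_lt aleph0_le_continuum hQ (mul_lt_of_lt aleph0_le_continuum ?_
        (mul_lt_of_lt aleph0_le_continuum ?_ ?_)))
    · simpa using aleph0_lt_continuum
    · simpa using aleph0_lt_continuum
    · simpa using (nat_lt_continuum 2)
  have hcard : #((X × Bool × ℕ) ⊕ (Pc Q × List Bool × ℕ × Bool)) < continuum := by
    rw [mk_sum, mk_prod, mk_prod, mk_prod, mk_prod, mk_prod]
    simp only [lift_id]
    refine add_lt_of_lt aleph0_le_continuum
      (mul_lt_of_lt aleph0_le_continuum hX (mul_lt_of_lt aleph0_le_continuum ?_ ?_))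
      (mul_lt_of_lt aleph0_le_continuum hcQ (mul_lt_of_lt aleph0_le_continuum ?_
        (mul_lt_of_lt aleph0_le_continuum ?_ ?_)))
    · simpa using (nat_lt_continuum 2)
    · simpa using aleph0_lt_continuum
    · simpa using aleph0_lt_continuum
    · simpa using aleph0_lt_continuum
    · simpa using (nat_lt_continuum 2)
  obtain ⟨C, hC⟩ := hM.get hcard D (by
    rintro (⟨x, c, k⟩ | ⟨i, s, k, c⟩)
    · constructor
      · refine isOpen_of_agree (fun C hC => ?_)
        obtain ⟨n, h1, h2, h3⟩ := hC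
        exact ⟨n + 1, fun C' hC' => ⟨n, h1, h2, by rw [hC' n (Nat.lt_succ_self n), h3]⟩⟩
      · refine dense_of_cyl (fun t => ?_)
        obtain ⟨h1, h2⟩ := hXP x.1 x.2
        obtain ⟨n, hn, hxn⟩ := hlim x.1 h1 h2 (max k t.length)
        refine ⟨fun i => if i < t.length then t.getD i false else c,
          ⟨n, (le_max_left _ _).trans hn, hxn, ?_⟩, fun i hi => if_pos hi⟩
        have h3 : ¬ n < t.length := by omega
        exact if_neg h3
    · constructor
      · refine isOpen_of_agree (fun C hC => ?_)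
        obtain ⟨j, h1, j', h2, h3⟩ := hC
        exact ⟨j', fun C' hC' => ⟨j, h1, j', h2, fun n hn hn' => by
          rw [hC' n hn', h3 n hn hn']⟩⟩
      · refine dense_of_cyl (fun t => ?_)
        obtain ⟨j', hj'⟩ := hbd i s (max k t.length)
        refine ⟨fun i => if i < t.length then t.getD i false else c,
          ⟨max k t.length, le_max_left _ _, j', hj', fun n hn _ => ?_⟩, fun i hi => if_pos hi⟩
        have h3 : ¬ n < t.length := by omega
        exact if_neg h3)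
  refine ⟨C, fun x hx c k => ?_, fun B hB hB' => ?_⟩
  · obtain ⟨n, h1, h2, h3⟩ := hC (.inl (⟨x, hx⟩, c, k))
    exact ⟨n, h1, h3, h2⟩
  · obtain ⟨i, hi⟩ := exists_piece hB'
    rcases hB with ⟨k, h⟩ | ⟨p, hp, s, k, c, h⟩
    · exact hOk B (Or.inl ⟨k, h⟩) hB'
    · rcases mem_insert_iff.1 hp with rfl | hp
      · obtain ⟨j, h1, j', h2, h3⟩ := hC (.inr (i, s, k, !c))
        obtain ⟨n, h4, h5, h6⟩ := h2 _ hi
        rw [co_co] at h6
        have h7 := h n (h1.trans h4) h6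
        have h8 := h3 n h4 h5
        dsimp only at h7
        rw [h7] at h8
        cases c <;> cases h8
      · exact hOk B (Or.inr ⟨p, hp, s, k, c, h⟩) hB'

end Pool.Agent.SplitLL
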